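import Pool.Agent.U630.IS.Main

/-!
# The isomorphism problem for groups generated by finite invertible automata is undecidable

An automaton is given by its finite tables (`Table`, `Valid` in `Pool.Agent.U630.IS.Defs`), `G A`
is the group generated by its states, acting on the words over the alphabet.  No algorithm decides,
given two finite invertible automata `A` and `B`, whether `G A` and `G B` are isomorphic as abstract
groups.  Moreover `B` can be fixed and `A` restricted to the automata over the alphabet with 16
letters.

Idea: take a sequence of finite presentations `P` with fixed generators `x_i` for which triviality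
is undecidable (Novikov-Boone and an Adian-Rabin type construction), a free subgroup of
`SL(2, ℤ)` on matrices `X_i`, and the group of all pairs of affine maps of the plane whose linear
parts lie in the subgroup of `SL(2, ℤ) × SL(2, ℤ)` generated by the `(X_i, X_i)` and the
`(1, r(X))`, `r` a relator (the fibre product of Mikhailova).  Acting on pairs of dyadic expansions,
this is the group of a finite automaton computable from `P`.  It is a product of two commuting
noncommutative subgroups if and only if `P` is trivial.
-/

set_option autoImplicit false

namespace Pool.Agent.Results.MP_56d946_al.IsomorphismUndecidable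

open Pool.Agent.U630.IS

/-- The definition of `G A` is not degenerate: every state of a finite invertible automaton acts
on the words over the alphabet by a permutation. -/
theorem state_perm (A : Table) (hA : Valid A) (s : ℕ) (hs : s < A.2.length) :
    ∃ g : Equiv.Perm (List (Fin A.1)), g ∈ G A ∧
      ∀ w : List (Fin A.1), (g w).map Fin.val = act A s (w.map Fin.val) := by
  have hex : ∀ (w : List (Fin A.1)) (s : ℕ), s < A.2.length →
      ∃ v : List (Fin A.1), v.map Fin.val = act A s (w.map Fin.val) := by
    intro w
    induction w with
    | nil => exact fun s _ => ⟨[], rfl⟩
    | cons x w ih =>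
      intro s hs
      obtain ⟨v, hv⟩ := ih (tau A s x) (hA.tau_lt s hs x x.2)
      exact ⟨⟨lam A s x, (hA.lam_bij s hs).1 x.2⟩ :: v, by
        rw [List.map_cons, hv]; rfl⟩
  have hinj : ∀ (w w' : List (Fin A.1)) (s : ℕ), s < A.2.length →
      act A s (w.map Fin.val) = act A s (w'.map Fin.val) → w = w' := by
    intro w
    induction w with
    | nil =>
      intro w' s _ h
      cases w' with
      | nil => rfl
      | cons x w' => simp [act] at h
    | cons x w ih =>
      intro w' s hs h
      cases w' with
      | nil => simp [act] at h
      | cons y w' =>
        simp only [List.map_cons, act, List.cons.injEq] at h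
        have hxy : x = y := Fin.ext ((hA.lam_bij s hs).2.1 x.2 y.2 h.1)
        subst hxy
        rw [ih w' _ (hA.tau_lt s hs x x.2) h.2]
  have hsurj : ∀ (v : List (Fin A.1)) (s : ℕ), s < A.2.length →
      ∃ w : List (Fin A.1), v.map Fin.val = act A s (w.map Fin.val) := by
    intro v
    induction v with
    | nil => exact fun s _ => ⟨[], rfl⟩
    | cons y v ih =>
      intro s hs
      obtain ⟨x, hx, hxy⟩ := (hA.lam_bij s hs).2.2 y.2
      obtain ⟨w, hw⟩ := ih (tau A s x) (hA.tau_lt s hs x hx)
      exact ⟨⟨x, hx⟩ :: w, by rw [List.map_cons, List.map_cons, act, hw, hxy]⟩
  choose f hf using fun w => hex w s hs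
  have hbij : Function.Bijective f := by
    constructor
    · intro w w' h
      exact hinj w w' s hs (by rw [← hf, ← hf, h])
    · intro v
      obtain ⟨w, hw⟩ := hsurj v s hs
      exact ⟨w, List.map_injective_iff.2 Fin.val_injective ((hf w).trans hw.symm)⟩
  exact ⟨Equiv.ofBijective f hbij, Subgroup.subset_closure ⟨s, hs, hf⟩, hf⟩

/-- There is no algorithm that, given the tables of two finite invertible automata `A` and `B`,
decides whether `G A` and `G B` are isomorphic; and there is a fixed finite invertible automaton
`B` over an alphabet with 16 letters such that no algorithm decides, given the table of a finite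
invertible automaton `A` over the alphabet with 16 letters, whether `G A` and `G B` are
isomorphic. -/
theorem result :
    (¬ ∃ D : Table × Table → Bool, Computable D ∧
      ∀ A B : Table, Valid A → Valid B → (D (A, B) = true ↔ Nonempty (G A ≃* G B))) ∧
    ∃ B : Table, Valid B ∧ B.1 = 16 ∧ ¬ ∃ D : Table → Bool, Computable D ∧
      ∀ A : Table, Valid A → A.1 = 16 → (D A = true ↔ Nonempty (G A ≃* G B)) :=
  ⟨pairs, fixed⟩

end Pool.Agent.Results.MP_56d946_al.IsomorphismUndecidable
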